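import Mathlib

/-! Multiscale recursion for percolation of axis-parallel sticks. -/

namespace Pool.Agent.H.MP_04d7a1_pr

open MeasureTheory ProbabilityTheory Filter Topology Finset Relation
open scoped ENNReal Classical

lemma mRT {Ω V : Type} [MeasurableSpace Ω] [Countable V] {R : Ω → V → V → Prop}
    (h : ∀ p q, MeasurableSet {ω | R ω p q}) (a b : V) :
    MeasurableSet {ω | ReflTransGen (R ω) a b} := by
  let Q : ℕ → V → Set Ω := fun n => Nat.rec (fun b => {_ω | a = b})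
    (fun _ s b => ⋃ c, s c ∩ {ω | R ω c b}) n
  have h1 : ∀ n b, MeasurableSet (Q n b) := fun n => by
    induction n with
    | zero => exact fun b => MeasurableSet.const _
    | succ n ih => exact fun b => .iUnion fun c => (ih c).inter (h c b)
  convert MeasurableSet.iUnion fun n => h1 n b
  ext ω
  simp only [Set.mem_iUnion, Set.mem_ofPred_eq]
  constructor
  · intro h
    induction h with
    | refl => exact ⟨0, rfl⟩
    | tail _ h2 ih => exact ih.elim fun n hn => ⟨n + 1, Set.mem_iUnion.2 ⟨_, hn, h2⟩⟩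
  · rintro ⟨n, hn⟩
    induction n generalizing b with
    | zero => exact (show a = b from hn) ▸ .refl
    | succ n ih =>
      obtain ⟨c, h1, h2⟩ := Set.mem_iUnion.1 hn
      exact (ih c h1).tail h2

lemma indep {ι Z : Type} [MeasurableSpace Z] (π : Measure Z) [IsProbabilityMeasure π]
    {S T : Finset ι} (hd : Disjoint S T) {E F : Set (ι → Z)} (mE : MeasurableSet E)
    (mF : MeasurableSet F) (dE : ∀ ω ω', (∀ y ∈ S, ω y = ω' y) → ω ∈ E → ω' ∈ E)
    (dF : ∀ ω ω', (∀ y ∈ T, ω y = ω' y) → ω ∈ F → ω' ∈ F) :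
    Measure.infinitePi (fun _ => π) (E ∩ F) =
      Measure.infinitePi (fun _ => π) E * Measure.infinitePi (fun _ => π) F := by
  obtain ⟨z⟩ := nonempty_of_isProbabilityMeasure π
  have m : ∀ S : Finset ι, Measurable fun (w : S → Z) y => if h : y ∈ S then w ⟨y, h⟩ else z :=
    fun S => measurable_pi_lambda _ fun y => by split_ifs <;> fun_prop
  have e : ∀ (S : Finset ι) (E : Set (ι → Z)), (∀ ω ω', (∀ y ∈ S, ω y = ω' y) → ω ∈ E → ω' ∈ E) →
      ((fun (w : S → Z) y => if h : y ∈ S then w ⟨y, h⟩ else z) ∘ fun (ω : ι → Z) (i : S) => ω i) ⁻¹'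
        E = E := fun S E h => Set.ext fun ω =>
    ⟨h _ _ fun y hy => by simp [hy], h _ _ fun y hy => by simp [hy]⟩
  have := (((iIndepFun_infinitePi (P := fun _ : ι => π) (X := fun _ ω => ω)
    fun _ => measurable_id).indepFun_finset S T hd fun i => measurable_pi_apply i).comp (m S)
      (m T)).measure_inter_preimage_eq_mul E F mE mF
  rwa [e S E dE, e T F dF] at this

lemma mo {V : Type} {R R' : V → V → Prop} {a b : V} (h : ReflTransGen R a b)
    (h' : ∀ p q, R p q → R' p q) : ReflTransGen R' a b := ReflTransGen.mono h' a b h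

abbrev V := ℤ × ℤ

def d (u z : V) : ℕ := max (z.1 - u.1).natAbs (z.2 - u.2).natAbs

lemma tri (x y z : V) : d x z ≤ d x y + d y z := by unfold d; omega

lemma sy (x y : V) : d x y = d y x := by unfold d; omega

lemma exit {R : V → V → Prop} (hR : ∀ p q, R p q → d p q ≤ 1) (u : V) {m : ℕ} {a b : V}
    (h : ReflTransGen R a b) (ha : d u a ≤ m) (hb : m ≤ d u b) :
    ∃ c, d u c = m ∧ ReflTransGen (fun p q => R p q ∧ d u p ≤ m ∧ d u q ≤ m) a c := by
  have : (d u b ≤ m ∧ ReflTransGen (fun p q => R p q ∧ d u p ≤ m ∧ d u q ≤ m) a b) ∨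
      ∃ c, d u c = m ∧ ReflTransGen (fun p q => R p q ∧ d u p ≤ m ∧ d u q ≤ m) a c := by
    clear hb
    induction h with
    | refl => exact Or.inl ⟨ha, .refl⟩
    | @tail p q _ h2 ih =>
      refine ih.elim (fun ⟨h3, h4⟩ => ?_) Or.inr
      by_cases h5 : d u q ≤ m
      · exact Or.inl ⟨h5, h4.tail ⟨h2, h3, h5⟩⟩
      · have := hR p q h2
        exact Or.inr ⟨p, by have := tri u p q; omega, h4⟩
  exact this.elim (fun h => ⟨b, le_antisymm h.1 hb, h.2⟩) id

noncomputable def box (u : V) (r : ℕ) : Finset V := Icc (u.1 - r) (u.1 + r) ×ˢ Icc (u.2 - r) (u.2 + r)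

lemma mem_box {u z : V} {r : ℕ} : z ∈ box u r ↔ d u z ≤ r := by
  simp only [box, d, mem_product, mem_Icc]
  omega

lemma card_box (u : V) (r : ℕ) : (box u r).card = (2 * r + 1) ^ 2 := by
  simp only [box, card_product, Int.card_Icc, pow_two]
  congr 1 <;> omega

lemma net {r : ℕ} (hr : 0 < r) {x a : V} (h : d x a ≤ 20 * r) :
    ∃ i ∈ box 0 20, d (x + (r : ℤ) • i) a ≤ r := by
  have : ∀ s : ℤ, s.natAbs ≤ 20 * r → (s / r).natAbs ≤ 20 ∧ (s - r * (s / r)).natAbs ≤ r := by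
    intro s hs
    have h0 : (0 : ℤ) < r := by exact_mod_cast hr
    have h1 := Int.emod_nonneg s h0.ne'
    have h2 := Int.emod_lt_of_pos s h0
    have h3 := Int.emod_add_mul_ediv s r
    have h4 : s / r ≤ 20 := by nlinarith [show s ≤ 20 * r by omega]
    have h5 : -21 < s / r := by nlinarith [show -(20 * r) ≤ s by omega]
    omega
  have h1 := this (a.1 - x.1) (by unfold d at h; omega)
  have h2 := this (a.2 - x.2) (by unfold d at h; omega)
  refine ⟨((a.1 - x.1) / r, (a.2 - x.2) / r), mem_box.2 ?_, ?_⟩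
  · simp only [d, Prod.fst_zero, Prod.snd_zero]; omega
  · simp only [d, Prod.fst_add, Prod.snd_add, Prod.smul_fst, Prod.smul_snd, smul_eq_mul]; omega

variable {Z : Type} (big : ℕ → Set Z)

def cov (ω : V → Z) (A : Set V) (z : V) : Prop :=
  ∃ y ∈ A, (y.1 = z.1 ∨ y.2 = z.2) ∧ ω y ∈ big (d y z)

def Rl (ω : V → Z) (A : Set V) (p q : V) : Prop := cov big ω A p ∧ cov big ω A q ∧ d p q ≤ 1

def G (u : V) (r : ℕ) : Set (V → Z) :=
  {ω | ∃ a b, d u a ≤ r ∧ 2 * r ≤ d u b ∧ ReflTransGen (Rl big ω (box u (3 * r))) a b}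

variable {big}

lemma loc {ω : V → Z} {A : Set V} {u a b : V} {r : ℕ}
    (h : ∀ z, d u z ≤ 2 * r → cov big ω A z → cov big ω (box u (3 * r)) z) (ha : d u a ≤ r)
    (hb : 2 * r ≤ d u b) (hp : ReflTransGen (Rl big ω A) a b) : ω ∈ G big u r := by
  obtain ⟨c, h1, h2⟩ := exit (fun _ _ h => h.2.2) u hp (by omega) hb
  exact ⟨a, c, ha, h1.ge, mo h2 fun p q ⟨⟨h3, h4, h5⟩, h6, h7⟩ => ⟨h p h6 h3, h q h7 h4, h5⟩⟩

lemma step (hb : Antitone big) {r : ℕ} (hr : 0 < r) (x : V) : G big x (10 * r) ⊆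
    (⋃ y ∈ box x (30 * r), {ω | ω y ∈ big r}) ∪ ⋃ i ∈ box 0 20, ⋃ j ∈ box 0 20,
      {ω | 6 * r < d (x + (r : ℤ) • i) (x + (r : ℤ) • j) ∧
        ω ∈ G big (x + (r : ℤ) • i) r ∩ G big (x + (r : ℤ) • j) r} := by
  rintro ω ⟨a, b, h1, h2, h3⟩
  refine or_iff_not_imp_left.2 fun hn => ?_
  rw [show 3 * (10 * r) = 30 * r by ring] at h3
  have key : ∀ u z, d u z ≤ 2 * r → cov big ω (box x (30 * r)) z → cov big ω (box u (3 * r)) z := by
    rintro u z hz ⟨y, y1, y2, y3⟩
    refine ⟨y, mem_box.2 ?_, y2, y3⟩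
    by_contra hc
    exact hn (Set.mem_biUnion y1 (hb (by have := tri u z y; have := sy y z; omega) y3))
  obtain ⟨c, c1, c2⟩ := exit (fun _ _ h => h.2.2) x h3 (m := 20 * r) (by omega) (by omega)
  replace c2 := mo c2 fun _ _ h => h.1
  obtain ⟨i, i1, i2⟩ := net hr (x := x) (a := a) (by omega)
  obtain ⟨j, j1, j2⟩ := net hr c1.le
  refine Set.mem_biUnion i1 (Set.mem_biUnion j1 ?_)
  simp only [Set.mem_ofPred_eq]
  generalize x + (r : ℤ) • i = u at *
  generalize x + (r : ℤ) • j = v at *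
  have := tri x a c
  have := tri a u c
  have := tri u v c
  have := tri a v c
  have := sy a u
  have := sy a v
  refine ⟨by omega, loc (key u) i2 (by omega) c2,
    loc (b := a) (key v) j2 (by omega) (mo (reflTransGen_swap.2 c2) ?_)⟩
  exact fun p q h => ⟨h.2.1, h.1, (sy _ _).trans_le h.2.2⟩

variable [MeasurableSpace Z] (π : Measure Z) [IsProbabilityMeasure π]

lemma mG (hm : ∀ n, MeasurableSet (big n)) (u : V) (r : ℕ) : MeasurableSet (G big u r) := by
  have h1 : ∀ A z, MeasurableSet {ω : V → Z | cov big ω A z} := fun A z => by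
    simp only [cov, Set.ofPred_exists]
    exact .iUnion fun y => (MeasurableSet.const _).inter
      ((MeasurableSet.const _).inter (measurable_pi_apply y (hm _)))
  simp only [G, Set.ofPred_exists]
  exact .iUnion fun a => .iUnion fun b => (MeasurableSet.const _).inter
    ((MeasurableSet.const _).inter (mRT (fun p q => (h1 _ p).inter ((h1 _ q).inter (.const _))) a b))

omit [MeasurableSpace Z] in
lemma dG (u : V) (r : ℕ) (ω ω' : V → Z) (h : ∀ y ∈ box u (3 * r), ω y = ω' y) :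
    ω ∈ G big u r → ω' ∈ G big u r := by
  have : ∀ z, cov big ω (box u (3 * r)) z → cov big ω' (box u (3 * r)) z :=
    fun z ⟨y, h1, h2, h3⟩ => ⟨y, h1, h2, h y h1 ▸ h3⟩
  exact fun ⟨a, b, h1, h2, h3⟩ =>
    ⟨a, b, h1, h2, mo h3 fun p q h => ⟨this _ h.1, this _ h.2.1, h.2.2⟩⟩

lemma ev (hm : ∀ n, MeasurableSet (big n)) (y : V) (n : ℕ) :
    Measure.infinitePi (fun _ : V => π) {ω | ω y ∈ big n} = π (big n) :=
  (measurePreserving_eval_infinitePi (fun _ : V => π) y).measure_preimage (hm n).nullMeasurableSet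

lemma P_G (hm : ∀ n, MeasurableSet (big n)) (hb : Antitone big) {l : ℝ≥0∞}
    (hl : 32 * 61 ^ 2 * 41 ^ 4 * l ≤ 1) (h0 : π (big 0) ≤ 2 * l)
    (h1 : ∀ k : ℕ, (10 ^ k) ^ 2 * π (big (10 ^ k)) ≤ 2 * l * (k + 1 : ℝ≥0∞)⁻¹) (k : ℕ) :
    ∀ x, Measure.infinitePi (fun _ : V => π) (G big x (10 ^ k)) ≤
      8 * 61 ^ 2 * l * (k + 1 : ℝ≥0∞)⁻¹ := by
  induction k with
  | zero =>
    intro x
    have : G big x (10 ^ 0) ⊆ ⋃ y ∈ box x 3, {ω | ω y ∈ big 0} := by
      rintro ω ⟨a, b, h1, h2, h3⟩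
      obtain rfl | ⟨c, ⟨⟨y, y1, -, y3⟩, -⟩, -⟩ := h3.cases_head
      · omega
      · exact Set.mem_biUnion y1 (hb zero_le y3)
    refine (measure_mono this).trans ((measure_biUnion_finset_le _ _).trans ?_)
    simp only [ev π hm, sum_const, card_box, nsmul_eq_mul]
    calc _ ≤ (49 : ℝ≥0∞) * (2 * l) := by gcongr; norm_num
      _ = 98 * l := by ring
      _ ≤ _ := by simp only [Nat.cast_zero, zero_add, inv_one, mul_one]; gcongr; norm_num
  | succ k ih =>
    intro x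
    have hr : 0 < 10 ^ k := by positivity
    have h2 := h1 k
    have h3 : (k + 1 : ℝ≥0∞)⁻¹ ≤ 2 * ((k + 1 : ℕ) + 1 : ℝ≥0∞)⁻¹ := by
      rw [← div_eq_mul_inv, ← one_div, ENNReal.le_div_iff_mul_le (by simp) (by simp), mul_comm,
        mul_one_div]
      refine ENNReal.div_le_of_le_mul ?_
      norm_cast
      omega
    have h4 : (k + 1 : ℝ≥0∞)⁻¹ ≤ 1 := ENNReal.inv_le_one.2 le_add_self
    rw [show ((10 : ℝ≥0∞) ^ k) = (10 ^ k : ℕ) by simp] at h2
    rw [pow_succ' 10 k]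
    generalize 10 ^ k = r at *
    generalize (k + 1 : ℝ≥0∞)⁻¹ = a at *
    have h5 : ∀ u v, Measure.infinitePi (fun _ : V => π)
        {ω | 6 * r < d u v ∧ ω ∈ G big u r ∩ G big v r} ≤ (8 * 61 ^ 2 * l * a) ^ 2 := fun u v => by
      by_cases h : 6 * r < d u v
      · simp only [h, true_and, Set.ofPred_mem_eq]
        rw [indep π (S := box u (3 * r)) (T := box v (3 * r)) (disjoint_left.2 fun y y1 y2 => by
          rw [mem_box] at y1 y2; have := tri u y v; have := sy y v; omega) (mG hm _ _) (mG hm _ _) (dG _ _) (dG _ _),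
          pow_two (_ * a)]
        exact mul_le_mul' (ih u) (ih v)
      · simp [h]
    refine (measure_mono (step hb hr x)).trans ((measure_union_le _ _).trans ((add_le_add
      (measure_biUnion_finset_le _ _) ((measure_biUnion_finset_le _ _).trans (sum_le_sum fun i _ =>
        (measure_biUnion_finset_le _ _).trans (sum_le_sum fun j _ => h5 _ _)))).trans ?_))
    simp only [ev π hm, sum_const, card_box, nsmul_eq_mul]
    have h6 : (((2 * (30 * r) + 1) ^ 2 : ℕ) : ℝ≥0∞) ≤ 61 ^ 2 * r ^ 2 := by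
      norm_cast
      nlinarith
    calc _ ≤ 61 ^ 2 * r ^ 2 * π (big r) + 41 ^ 4 * (8 * 61 ^ 2 * l * a) ^ 2 := by
          gcongr ?_ * _ + ?_
          exact le_of_eq (by push_cast; ring)
      _ = 61 ^ 2 * (r ^ 2 * π (big r)) +
          2 * 61 ^ 2 * l * a * a * (32 * 61 ^ 2 * 41 ^ 4 * l) := by ring
      _ ≤ 61 ^ 2 * (2 * l * a) + 2 * 61 ^ 2 * l * a * 1 * 1 := by gcongr
      _ = 4 * 61 ^ 2 * l * a := by ring
      _ ≤ 4 * 61 ^ 2 * l * (2 * ((k + 1 : ℕ) + 1 : ℝ≥0∞)⁻¹) := by gcongr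
      _ = _ := by ring

theorem main (hm : ∀ n, MeasurableSet (big n)) (hb : Antitone big) {l : ℝ≥0∞}
    (hl : 32 * 61 ^ 2 * 41 ^ 4 * l ≤ 1) (h0 : π (big 0) ≤ 2 * l)
    (h1 : ∀ k : ℕ, (10 ^ k) ^ 2 * π (big (10 ^ k)) ≤ 2 * l * (k + 1 : ℝ≥0∞)⁻¹)
    (h2 : ∀ k : ℕ, 10 ^ k * ∑' n, π (big (10 ^ k + n)) ≤ 2 * l * (k + 1 : ℝ≥0∞)⁻¹) (a : V) :
    Measure.infinitePi (fun _ : V => π)
      {ω | {b | ReflTransGen (Rl big ω Set.univ) a b}.Infinite} = 0 := by
  have hl' : l ≠ ⊤ := by rintro rfl; simp at hl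
  have t := ENNReal.Tendsto.const_mul (a := 8 * 61 ^ 2 * l + 40 * l)
    (ENNReal.tendsto_inv_nat_nhds_zero.comp (tendsto_add_atTop_nat 1)) (Or.inr (by finiteness))
  rw [mul_zero] at t
  refine nonpos_iff_eq_zero.1 (ge_of_tendsto' t fun k => ?_)
  have h3 := P_G π hm hb hl h0 h1 k a
  have h4 := h2 k
  have hr : 0 < 10 ^ k := by positivity
  rw [show ((10 : ℝ≥0∞) ^ k) = (10 ^ k : ℕ) by simp] at h4
  simp only [Function.comp, Nat.cast_add, Nat.cast_one]
  generalize 10 ^ k = r at *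
  generalize (k + 1 : ℝ≥0∞)⁻¹ = c at *
  let f : Bool × Bool → ℤ → ℕ → V := fun s i n =>
    if s.1 then (a.1 + i, a.2 + if s.2 then (3 * r + n : ℤ) else -(3 * r + n))
    else (a.1 + if s.2 then (3 * r + n : ℤ) else -(3 * r + n), a.2 + i)
  have : {ω | {b | ReflTransGen (Rl big ω Set.univ) a b}.Infinite} ⊆ G big a r ∪
      ⋃ s, ⋃ i ∈ Icc (-(2 * r : ℤ)) (2 * r), ⋃ n, {ω | ω (f s i n) ∈ big (r + n)} := by
    intro ω hω
    refine or_iff_not_imp_right.2 fun hn => ?_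
    obtain ⟨b, b1, b2⟩ := hω.exists_notMem_finset (box a (2 * r))
    rw [mem_box] at b2
    refine loc ?_ (by simp [d]) (by omega) b1
    rintro z hz ⟨y, -, y2, y3⟩
    refine ⟨y, mem_box.2 ?_, y2, y3⟩
    by_contra hc
    refine hn ?_
    simp only [Set.mem_iUnion, Set.mem_ofPred_eq, mem_Icc]
    have e : ∀ s i, f s i (d a y - 3 * r) = y → -(2 * r : ℤ) ≤ i ∧ i ≤ 2 * r → ∃ s i,
        ∃ _ : -(2 * r : ℤ) ≤ i ∧ i ≤ 2 * r, ∃ n, ω (f s i n) ∈ big (r + n) := fun s i h h' =>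
      ⟨s, i, h', _, h ▸ hb (by unfold d at *; omega) y3⟩
    rcases y2 with y2 | y2
    · refine e (true, decide (a.2 ≤ y.2)) (y.1 - a.1) (Prod.ext ?_ ?_) (by unfold d at *; omega)
      · simp [f]
      · simp only [f, if_true, decide_eq_true_eq]; unfold d at *; split_ifs <;> omega
    · refine e (false, decide (a.1 ≤ y.1)) (y.2 - a.2) (Prod.ext ?_ ?_) (by unfold d at *; omega)
      · simp only [f, Bool.false_eq_true, if_false, decide_eq_true_eq]
        unfold d at *; split_ifs <;> omega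
      · simp [f]
  refine (measure_mono this).trans ((measure_union_le _ _).trans ((add_le_add h3
    ((measure_iUnion_fintype_le _ _).trans (sum_le_sum fun s _ =>
      (measure_biUnion_finset_le _ _).trans (sum_le_sum fun i _ => measure_iUnion_le _)))).trans ?_))
  simp only [ev π hm, sum_const, nsmul_eq_mul, card_univ, Fintype.card_prod, Fintype.card_bool,
    Int.card_Icc]
  rw [add_mul (8 * 61 ^ 2 * l)]
  refine add_le_add_right ?_ _
  calc _ ≤ (4 : ℝ≥0∞) * ((5 * r : ℕ) * ∑' n, π (big (r + n))) := by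
        gcongr
        · norm_num
        · omega
    _ = 20 * (r * ∑' n, π (big (r + n))) := by push_cast; ring
    _ ≤ 20 * (2 * l * c) := by gcongr
    _ = _ := by ring

end Pool.Agent.H.MP_04d7a1_pr
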